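import Pool.Agent.KDT.StmtsM

/-!
Squad KDT, row CNB: most elements of a coset can be added to `t`.
-/

set_option autoImplicit false

namespace Pool.Agent.KDT.H80

open Polynomial Pool.Agent.KDT Pool.Agent.KDT.Z

lemma eval_pA {F : Type} [Field F] (q : Fin 4 → F) (a : F) :
    (pA q).eval a = a ^ 2 - q 0 * a + q 1 := by
  simp [pA]

lemma on_eval {F : Type} [Field F] {f : F[X]} {q : Fin 4 → F} (hq : On f q) {a : F}
    (ha : (pA q).eval a = 0) : ((pB q).eval a) ^ 2 = f.eval a := by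
  obtain ⟨g, hg⟩ := hq
  have h := congrArg (Polynomial.eval a) hg
  rw [Polynomial.eval_sub, Polynomial.eval_pow, Polynomial.eval_mul, ha, zero_mul] at h
  exact sub_eq_zero.1 h

/-- the two roots of `A_t` -/
lemma roots_pA {F : Type} [Field F] [IsAlgClosed F] (t : Fin 4 → F) :
    ∃ a₁ a₂ : F, a₁ + a₂ = t 0 ∧ a₁ * a₂ = t 1 ∧ (pA t).eval a₁ = 0 ∧ (pA t).eval a₂ = 0 := by
  have hdeg : (pA t).degree ≠ 0 := by
    have h : pA t = X ^ 2 + (- C (t 0) * X + C (t 1)) := by unfold pA; ring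
    have h2 : (- C (t 0) * X + C (t 1) : F[X]).degree ≤ 1 := by
      rw [← C_neg]
      exact Polynomial.degree_linear_le
    have h3 : (pA t).degree = 2 := by
      rw [h, Polynomial.degree_add_eq_left_of_degree_lt]
      · exact Polynomial.degree_X_pow 2
      · rw [Polynomial.degree_X_pow]
        exact lt_of_le_of_lt h2 (by norm_num)
    rw [h3]
    norm_num
  obtain ⟨a, ha⟩ := IsAlgClosed.exists_root (pA t) hdeg
  have ha' : (pA t).eval a = 0 := ha
  have ha2 := ha'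
  rw [eval_pA] at ha2
  refine ⟨a, t 0 - a, by ring, by linear_combination -ha2, ha', ?_⟩
  rw [eval_pA]
  linear_combination ha2

lemma rr_eq {F : Type} [Field F] {t : Fin 4 → F} {a₁ a₂ : F} (q : Fin 4 → F)
    (h1 : a₁ + a₂ = t 0) (h2 : a₁ * a₂ = t 1) :
    rr q t = (pA q).eval a₁ * (pA q).eval a₂ := by
  rw [eval_pA, eval_pA]
  unfold rr
  rw [← h1, ← h2]
  ring

/-- the second point of `q` -/
lemma split_at {F : Type} [Field F] {f : F[X]} {J : Type} [AddCommGroup J] {th : Pt f → J}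
    {cl : (Fin 4 → F) → J} (hJ : JG f J th cl) {q : Fin 4 → F} (hq : On f q) (z : Pt f)
    (hz : (pA q).eval z.a = 0) (hb : (pB q).eval z.a = z.b) : ∃ w : Pt f, cl q = th z + th w := by
  have hz2 := hz
  rw [eval_pA] at hz2
  have hw : (pA q).eval (q 0 - z.a) = 0 := by
    rw [eval_pA]
    linear_combination hz2
  refine ⟨⟨q 0 - z.a, (pB q).eval (q 0 - z.a), on_eval hq hw⟩, ?_⟩
  refine hJ.split q z _ hq ?_ hb rfl
  have e1 : (X - C z.a) * (X - C (q 0 - z.a)) =
      X ^ 2 - C (q 0) * X + C (z.a * (q 0 - z.a)) := by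
    simp only [C_sub, C_mul]
    ring
  have e2 : z.a * (q 0 - z.a) = q 1 := by linear_combination -hz2
  show pA q = (X - C z.a) * (X - C (q 0 - z.a))
  rw [e1, e2]
  rfl

theorem cnb (hS : SdnStatement) : CnbStatement := by
  classical
  intro F _ _ f J _ th cl hJ H hH c t ht
  obtain ⟨a₁, a₂, hs, hp, he1, he2⟩ := roots_pA t
  set z₁ : Pt f := ⟨a₁, (pB t).eval a₁, on_eval ht he1⟩ with hz1
  set z₂ : Pt f := ⟨a₂, (pB t).eval a₂, on_eval ht he2⟩ with hz2
  set S : J → Set J := fun d => {h : J | h ∈ H ∧ Tht th (d + h)} with hSd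
  have hSc : ∀ d, (S d).ncard ≤ Nat.sqrt (2 * Nat.card H) + 3 := fun d =>
    hS F f J th cl hJ H hH d
  have hfinH : {h : J | h ∈ H}.Finite := Set.toFinite (H : Set J)
  have hfin : ∀ d, (S d).Finite := fun d => hfinH.subset fun h hh => hh.1
  -- a common root
  have hroot : ∀ (q : Fin 4 → F), On f q → ∀ (z : Pt f), (pB t).eval z.a = z.b →
      (pA q).eval z.a = 0 → ∀ h : J, c + h = cl q →
      Tht th ((c - th z) + h) ∨ Tht th ((c - th z.neg) + h) := by
    intro q hq z hzb hqa h hch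
    have hsq := on_eval hq hqa
    have hsq' : ((pB q).eval z.a) ^ 2 = z.b ^ 2 := by rw [hsq, z.on]
    rcases sq_eq_sq_iff_eq_or_eq_neg.1 hsq' with h1 | h1
    · obtain ⟨w, hw⟩ := split_at hJ hq z hqa h1
      refine Or.inl (Or.inr ⟨w, ?_⟩)
      have : (c - th z) + h = (c + h) - th z := by abel
      rw [this, hch, hw]
      abel
    · obtain ⟨w, hw⟩ := split_at hJ hq z.neg hqa h1
      refine Or.inr (Or.inr ⟨w, ?_⟩)
      have : (c - th z.neg) + h = (c + h) - th z.neg := by abel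
      rw [this, hch, hw]
      abel
  have hsub : {h : J | h ∈ H ∧ ¬ Good f cl (c + h) t} ⊆
      S c ∪ (S (c - th z₁) ∪ (S (c - th z₁.neg) ∪ (S (c - th z₂) ∪ (S (c - th z₂.neg) ∪
        S (c + cl t))))) := by
    rintro h ⟨hh, hng⟩
    rcases hJ.cover (c + h) with h0 | ⟨z, hz⟩ | ⟨q, hq, hch⟩
    · exact Or.inl ⟨hh, Or.inl h0⟩
    · exact Or.inl ⟨hh, Or.inr ⟨z, hz⟩⟩
    · by_cases hrr : rr q t = 0
      · rw [rr_eq q hs hp] at hrr
        rcases mul_eq_zero.1 hrr with h1 | h1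
        · rcases hroot q hq z₁ rfl h1 h hch with h2 | h2
          · exact Or.inr (Or.inl ⟨hh, h2⟩)
          · exact Or.inr (Or.inr (Or.inl ⟨hh, h2⟩))
        · rcases hroot q hq z₂ rfl h1 h hch with h2 | h2
          · exact Or.inr (Or.inr (Or.inr (Or.inl ⟨hh, h2⟩)))
          · exact Or.inr (Or.inr (Or.inr (Or.inr (Or.inl ⟨hh, h2⟩))))
      · by_cases hro : ro q t = 0
        · refine Or.inr (Or.inr (Or.inr (Or.inr (Or.inr ⟨hh, ?_⟩))))
          have e : (c + cl t) + h = cl q + cl t := by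
            rw [← hch]
            abel
          rw [e]
          exact hJ.exc q t hq ht hrr hro
        · exact absurd ⟨q, hq, hch, hrr, hro⟩ hng
  have hfu : (S c ∪ (S (c - th z₁) ∪ (S (c - th z₁.neg) ∪ (S (c - th z₂) ∪
      (S (c - th z₂.neg) ∪ S (c + cl t)))))).Finite :=
    (hfin _).union ((hfin _).union ((hfin _).union ((hfin _).union ((hfin _).union (hfin _)))))
  refine (Set.ncard_le_ncard hsub hfu).trans ?_
  have u1 := Set.ncard_union_le (S c) (S (c - th z₁) ∪ (S (c - th z₁.neg) ∪ (S (c - th z₂) ∪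
      (S (c - th z₂.neg) ∪ S (c + cl t)))))
  have u2 := Set.ncard_union_le (S (c - th z₁)) (S (c - th z₁.neg) ∪ (S (c - th z₂) ∪
      (S (c - th z₂.neg) ∪ S (c + cl t))))
  have u3 := Set.ncard_union_le (S (c - th z₁.neg)) (S (c - th z₂) ∪
      (S (c - th z₂.neg) ∪ S (c + cl t)))
  have u4 := Set.ncard_union_le (S (c - th z₂)) (S (c - th z₂.neg) ∪ S (c + cl t))
  have u5 := Set.ncard_union_le (S (c - th z₂.neg)) (S (c + cl t))
  have v0 := hSc c
  have v1 := hSc (c - th z₁)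
  have v2 := hSc (c - th z₁.neg)
  have v3 := hSc (c - th z₂)
  have v4 := hSc (c - th z₂.neg)
  have v5 := hSc (c + cl t)
  omega

end Pool.Agent.KDT.H80
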