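import Pool.Agent.KDT.StmtsP

/-!
Squad KDT, row GNZ: generic zeros exist.
-/

set_option autoImplicit false

namespace Pool.Agent.KDT.H80

open Polynomial Pool.Agent.KDT Pool.Agent.KDT.Z

lemma transc {k U : Type} [Field k] [Field U] [Algebra k U] [IsAlgClosed k] {t : U}
    (ht : t ∉ (algebraMap k U).range) : Transcendental k t := by
  intro halg
  apply ht
  have hi : IsIntegral k t := halg.isIntegral
  have h1 : (minpoly k t).degree = 1 :=
    IsAlgClosed.degree_eq_one_of_irreducible k (minpoly.irreducible hi)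
  exact minpoly.mem_range_of_degree_eq_one k t h1

lemma key {k U : Type} [Field k] [Field U] [Algebra k U] [IsAlgClosed U] {t : U}
    (ht : Transcendental k t) (Φ : MvPolynomial (Fin 2) k) {m₀ : Fin 2 →₀ ℕ}
    (hm₀ : m₀ ∈ Φ.support) {i i' : Fin 2} (hii : i ≠ i') (hi : 1 ≤ m₀ i) :
    ∃ p : U, MvPolynomial.aeval (fun j => if j = i then p else t) Φ = 0 := by
  classical
  set Q : U[X] := ∑ m ∈ Φ.support,
    Polynomial.C (algebraMap k U (MvPolynomial.coeff m Φ) * t ^ (m i')) * Polynomial.X ^ (m i)
    with hQ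
  have hev : ∀ p : U, Q.eval p = MvPolynomial.aeval (fun j => if j = i then p else t) Φ := by
    intro p
    rw [MvPolynomial.aeval_def, MvPolynomial.eval₂_eq', hQ, Polynomial.eval_finset_sum]
    refine Finset.sum_congr rfl fun m _ => ?_
    have hprod : ∏ j : Fin 2, (if j = i then p else t) ^ (m j) = p ^ (m i) * t ^ (m i') := by
      have hu : (Finset.univ : Finset (Fin 2)) = {i, i'} := by
        ext j
        simp only [Finset.mem_univ, Finset.mem_insert, Finset.mem_singleton, true_iff]
        omega
      rw [hu, Finset.prod_pair hii, if_pos rfl, if_neg (Ne.symm hii)]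
    rw [hprod]
    simp only [Polynomial.eval_mul, Polynomial.eval_C, Polynomial.eval_pow, Polynomial.eval_X]
    ring
  set c : k[X] := ∑ m ∈ Φ.support.filter (fun m => m i = m₀ i),
    Polynomial.monomial (m i') (MvPolynomial.coeff m Φ) with hc
  have hcc : c.coeff (m₀ i') = MvPolynomial.coeff m₀ Φ := by
    rw [hc, Polynomial.finset_sum_coeff, Finset.sum_eq_single m₀]
    · rw [Polynomial.coeff_monomial, if_pos rfl]
    · intro m hm hne
      rw [Polynomial.coeff_monomial, if_neg]
      intro h
      apply hne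
      ext j
      have hj : j = i ∨ j = i' := by omega
      rcases hj with rfl | rfl
      · exact (Finset.mem_filter.1 hm).2
      · exact h
    · intro h
      exact absurd (Finset.mem_filter.2 ⟨hm₀, (rfl : m₀ i = m₀ i)⟩) h
  have hc0 : c ≠ 0 := by
    intro h
    rw [h, Polynomial.coeff_zero] at hcc
    exact (MvPolynomial.mem_support_iff.1 hm₀) hcc.symm
  have hct : Polynomial.aeval t c ≠ 0 := fun h => hc0 ((transcendental_iff.1 ht) c h)
  have hQc : Q.coeff (m₀ i) = Polynomial.aeval t c := by
    rw [hQ, hc, Polynomial.finset_sum_coeff, map_sum, Finset.sum_filter]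
    refine Finset.sum_congr rfl fun m _ => ?_
    rw [Polynomial.coeff_C_mul, Polynomial.coeff_X_pow, Polynomial.aeval_monomial]
    by_cases h : m i = m₀ i
    · rw [if_pos h, if_pos h.symm, mul_one]
    · rw [if_neg h, if_neg (Ne.symm h), mul_zero]
  have hdeg : Q.degree ≠ 0 := by
    intro h0
    have h1 : Q.natDegree = 0 := Polynomial.natDegree_eq_of_degree_eq_some h0
    have h2 : Q.coeff (m₀ i) = 0 := Polynomial.coeff_eq_zero_of_natDegree_lt (by omega)
    rw [hQc] at h2
    exact hct h2
  obtain ⟨p, hp⟩ := IsAlgClosed.exists_root Q hdeg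
  exact ⟨p, by rw [← hev]; exact hp⟩

theorem gnz : GnzStatement := by
  classical
  intro k U _ _ _ f g hE Φ hΦ
  haveI := hE.kc
  haveI := hE.oc
  obtain ⟨t, ht⟩ := hE.ne
  have htr := transc ht
  have hex : ∃ m ∈ Φ.support, m ≠ 0 := by
    by_contra hno
    push Not at hno
    have h1 : Φ = MvPolynomial.C (MvPolynomial.coeff 0 Φ) := by
      ext m
      rw [MvPolynomial.coeff_C]
      split_ifs with h
      · rw [h]
      · by_contra hne
        exact h ((hno m (MvPolynomial.mem_support_iff.2 hne)).symm)
    have h2 : MvPolynomial.coeff 0 Φ ≠ 0 := by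
      intro h0
      rw [h0, map_zero] at h1
      exact hΦ.ne_zero h1
    apply hΦ.not_isUnit
    rw [h1]
    exact (isUnit_iff_ne_zero.2 h2).map MvPolynomial.C
  obtain ⟨m, hm, hm0⟩ := hex
  have hcase : 1 ≤ m 1 ∨ 1 ≤ m 0 := by
    by_contra hno
    push Not at hno
    apply hm0
    ext j
    fin_cases j
    · have := hno.2
      simp only [Finsupp.coe_zero, Pi.zero_apply]
      show m 0 = 0
      omega
    · have := hno.1
      simp only [Finsupp.coe_zero, Pi.zero_apply]
      show m 1 = 0
      omega
  rcases hcase with h1 | h0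
  · obtain ⟨p, hp⟩ := key htr Φ hm (i := 1) (i' := 0) (by decide) h1
    refine ⟨t, p, ?_, fun h => ht h.1⟩
    have e : (fun j : Fin 2 => if j = 1 then p else t) = ![t, p] := by
      funext j
      fin_cases j <;> rfl
    rw [e] at hp
    exact hp
  · obtain ⟨p, hp⟩ := key htr Φ hm (i := 0) (i' := 1) (by decide) h0
    refine ⟨p, t, ?_, fun h => ht h.2⟩
    have e : (fun j : Fin 2 => if j = 0 then p else t) = ![p, t] := by
      funext j
      fin_cases j <;> rfl
    rw [e] at hp
    exact hp

end Pool.Agent.KDT.H80
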